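import Mathlib
import Pool.Agent.Lib.MP_505b0b_al.SS

/-!
# MP_505b0b_al: self-similarity is invariant under commensurability
-/

namespace Pool.Agent.Results.MP_505b0b_al.Commensurability

open Pool.Agent.MP505b0b

/-- If two groups `G` and `G'` are commensurable, that is, a subgroup of finite index of `G` is
isomorphic to a subgroup of finite index of `G'`, then `G` is self-similar if and only if `G'`
is. -/
theorem result (G G' : Type) [Group G] [Group G'] (A : Subgroup G) (A' : Subgroup G')
    (hA : A.FiniteIndex) (hA' : A'.FiniteIndex) (e : A ≃* A') :
    SelfSimilar G ↔ SelfSimilar G' := by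
  constructor
  · intro h
    exact SelfSimilar.of_subgroup A' ((h.subgroup A).of_equiv e)
  · intro h
    exact SelfSimilar.of_subgroup A ((h.subgroup A').of_equiv e.symm)

end Pool.Agent.Results.MP_505b0b_al.Commensurability
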