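import Mathlib
import Pool.Agent.Lib.MP_505b0b_al.Core

/-!
# MP_505b0b_al: iterated amalgams along centralizers are self-similar
-/

namespace Pool.Agent.Results.MP_505b0b_al.IteratedDoubles

open Pool.Agent.MP505b0b

/-- The amalgam of the subgroups `H i` of `R` along their common subgroup `C`: the free product of
the groups `H i`, in which, for each element of `C`, its copies in all the `H i` are identified. For
two subgroups both equal to `R` this is the double `R *_C R`. -/
abbrev Amalgam {R : Type} [Group R] (C : Subgroup R) {ι : Type} (H : ι → Subgroup R)
    (hC : ∀ i, C ≤ H i) : Type :=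
  Monoid.PushoutI (fun i => Subgroup.inclusion (hC i))

/-- The class `𝒟`: the smallest class of groups which contains the free group of rank two and each
self-similar group with the big powers property, and which is closed under isomorphism, under
passing to subgroups of finite index, and under the following construction. Take `R` in the class,
`w ≠ 1` in `R`, and a finite family of subgroups `H i` of `R`, each containing the centralizer `C`
of `w` in `R` and one of them equal to `R`; form the amalgam of the `H i` along `C`. -/
inductive InClass : ∀ G : Type, Group G → Prop
  | free : InClass (FreeGroup (Fin 2)) inferInstance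
  | base {G : Type} [Group G] (hS : SelfSimilar G) (hB : BigPowers G) : InClass G inferInstance
  | iso {G H : Type} [Group G] [Group H] (e : G ≃* H) (hG : InClass G inferInstance) :
      InClass H inferInstance
  | finiteIndex {G : Type} [Group G] (H : Subgroup G) (hH : H.FiniteIndex)
      (hG : InClass G inferInstance) : InClass H inferInstance
  | amalgam {R : Type} [Group R] (hR : InClass R inferInstance) (w : R) (hw : w ≠ 1)
      {ι : Type} (hι : Finite ι) (H : ι → Subgroup R)
      (hC : ∀ i, Subgroup.centralizer {w} ≤ H i) (i₀ : ι) (h₀ : H i₀ = ⊤) :
      InClass (Amalgam (Subgroup.centralizer {w}) H hC) inferInstance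

theorem inClass_spec (G : Type) (inst : Group G) (h : InClass G inst) :
    SelfSimilar G ∧ BigPowers G := by
  induction h with
  | free => exact ⟨selfSimilar_free, bigPowers_free 2⟩
  | base hS hB => exact ⟨hS, hB⟩
  | iso e hG ih => exact ⟨ih.1.of_equiv e, ih.2.of_injective e.symm.toMonoidHom e.symm.injective⟩
  | finiteIndex H hH hG ih =>
    exact ⟨ih.1.subgroup H, ih.2.of_injective H.subtype H.subtype_injective⟩
  | amalgam hR w hw hι H hC i₀ h₀ ih =>
    exact ⟨ih.1.star ih.2 w hw i₀ H hC h₀, ih.2.star w hw H hC⟩

/-- Every group `G` which is commensurable with a member `G'` of the class `𝒟` (it has a subgroup of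
finite index isomorphic to a subgroup of finite index of `G'`) is self-similar. -/
theorem result (G G' : Type) [Group G] [Group G'] (hG' : InClass G' inferInstance)
    (A : Subgroup G) (A' : Subgroup G') (hA : A.FiniteIndex) (hA' : A'.FiniteIndex)
    (e : A ≃* A') : SelfSimilar G := by
  have h1 : SelfSimilar A' := (inClass_spec G' _ hG').1.subgroup A'
  exact SelfSimilar.of_subgroup A (h1.of_equiv e.symm)

end Pool.Agent.Results.MP_505b0b_al.IteratedDoubles
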